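import Pool.Agent.Helper4.HD.Goals

/-!
# Project SQ (MP_bb32d1_al), Dunkl block, packet HD-PSF: the power series at a point
-/

set_option autoImplicit false

namespace Pool.Agent.Helper13.HD

open MvPolynomial Finset Pool.Agent.Helper4.HD

noncomputable section

/-- the geometric series -/
def geo (y : ℂ) : PowerSeries ℂ := PowerSeries.mk fun k => y ^ k

theorem coeff_geo (y : ℂ) (k : ℕ) : PowerSeries.coeff k (geo y) = y ^ k :=
  PowerSeries.coeff_mk k _

theorem sub_mul_geo (y : ℂ) : (1 - PowerSeries.C y * PowerSeries.X) * geo y = 1 := by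
  ext k
  rw [sub_mul, one_mul, map_sub, mul_assoc, PowerSeries.coeff_C_mul]
  rcases k with _ | k
  · rw [PowerSeries.coeff_zero_X_mul, coeff_geo, mul_zero, pow_zero, sub_zero]
    simp
  · rw [PowerSeries.coeff_succ_X_mul, coeff_geo, coeff_geo, PowerSeries.coeff_one,
      if_neg (Nat.succ_ne_zero k), pow_succ]
    ring

theorem deriv_geo (y : ℂ) :
    PowerSeries.derivative ℂ (geo y) = PowerSeries.C y * geo y * geo y := by
  have h1 := congrArg (PowerSeries.derivative ℂ) (sub_mul_geo y)
  rw [Derivation.leibniz, PowerSeries.derivative_one, map_sub, PowerSeries.derivative_one,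
    Derivation.leibniz, PowerSeries.derivative_X, PowerSeries.derivative_C] at h1
  simp only [smul_eq_mul, mul_one, mul_zero, add_zero, zero_sub] at h1
  have h2 : (1 - PowerSeries.C y * PowerSeries.X) * PowerSeries.derivative ℂ (geo y) =
      PowerSeries.C y * geo y := by
    linear_combination h1
  have h3 := sub_mul_geo y
  calc PowerSeries.derivative ℂ (geo y)
      = ((1 - PowerSeries.C y * PowerSeries.X) * geo y) * PowerSeries.derivative ℂ (geo y) := by
        rw [h3, one_mul]
    _ = geo y * ((1 - PowerSeries.C y * PowerSeries.X) * PowerSeries.derivative ℂ (geo y)) := by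
        ring
    _ = PowerSeries.C y * geo y * geo y := by
        rw [h2]
        ring

theorem deriv_prod (S : Finset ℂ) : PowerSeries.derivative ℂ (∏ y ∈ S, geo y) =
    (∑ y ∈ S, PowerSeries.C y * geo y) * ∏ y ∈ S, geo y := by
  induction S using Finset.induction_on with
  | empty => simp
  | insert y S hy ih =>
    rw [Finset.prod_insert hy, Finset.sum_insert hy, Derivation.leibniz, ih, deriv_geo]
    simp only [smul_eq_mul]
    ring

/-- the generating series of the values of `gg` -/
def GS (n : ℕ) (a : Fin n → ℂ) : PowerSeries ℂ := PowerSeries.mk fun m => eval a (gg n m)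

theorem coeff_GS (n : ℕ) (a : Fin n → ℂ) (m : ℕ) :
    PowerSeries.coeff m (GS n a) = eval a (gg n m) := PowerSeries.coeff_mk m _

theorem gg_rec (n m : ℕ) (a : Fin n → ℂ) : eval a (gg n (m + 1)) * ((m : ℂ) + 1) =
    -(cc n) * ∑ s ∈ range (m + 1), (∑ i, a i ^ (s + 1)) * eval a (gg n (m - s)) := by
  have h0 : ((m : ℂ) + 1) ≠ 0 := Nat.cast_add_one_ne_zero m
  rw [gg, map_mul, eval_C, map_sum]
  have h1 : ∀ s : Fin (m + 1), eval a (pw n ((s : ℕ) + 1) * gg n (m - s)) =
      (fun s : ℕ => (∑ i, a i ^ (s + 1)) * eval a (gg n (m - s))) s := by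
    intro s
    rw [map_mul]
    congr 1
    unfold pw
    rw [map_sum]
    refine Finset.sum_congr rfl fun i _ => ?_
    rw [map_pow, eval_X]
  rw [Finset.sum_congr rfl fun s _ => h1 s, Fin.sum_univ_eq_sum_range
    (fun s : ℕ => (∑ i, a i ^ (s + 1)) * eval a (gg n (m - s)))]
  field_simp

theorem deriv_GS (n : ℕ) (a : Fin n → ℂ) : PowerSeries.derivative ℂ (GS n a) =
    -(PowerSeries.C (cc n) * (∑ i, PowerSeries.C (a i) * geo (a i)) * GS n a) := by
  ext m
  rw [PowerSeries.coeff_derivative, coeff_GS, gg_rec, map_neg, mul_assoc,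
    PowerSeries.coeff_C_mul, PowerSeries.coeff_mul, Finset.Nat.sum_antidiagonal_eq_sum_range_succ_mk,
    neg_mul]
  congr 2
  refine Finset.sum_congr rfl fun s _ => ?_
  rw [coeff_GS, map_sum]
  congr 1
  refine Finset.sum_congr rfl fun i _ => ?_
  rw [PowerSeries.coeff_C_mul, coeff_geo, pow_succ, mul_comm]

theorem sum_vals (n : ℕ) (a : Fin n → ℂ) : ∑ i, PowerSeries.C (a i) * geo (a i) =
    ∑ y ∈ univ.image a, PowerSeries.C ((mlt a y : ℂ) * y) * geo y := by
  rw [Finset.sum_comp (fun y => PowerSeries.C y * geo y) a]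
  refine Finset.sum_congr rfl fun y _ => ?_
  unfold mlt
  rw [nsmul_eq_mul, map_mul, mul_assoc]
  congr 1

theorem pr1_geo (Y : Finset ℂ) {y : ℂ} (hy : y ∈ Y) : pr1 Y * geo y = pr1 (Y.erase y) := by
  unfold pr1
  rw [← Finset.mul_prod_erase Y _ hy]
  have := sub_mul_geo y
  calc _ = ((1 - PowerSeries.C y * PowerSeries.X) * geo y) *
        ∏ x ∈ Y.erase y, (1 - PowerSeries.C x * PowerSeries.X) := by ring
    _ = _ := by rw [this, one_mul]

theorem pr1_prod (Y : Finset ℂ) : pr1 Y * ∏ y ∈ Y, geo y = 1 := by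
  unfold pr1
  rw [← Finset.prod_mul_distrib]
  exact Finset.prod_eq_one fun y _ => sub_mul_geo y

/-- **Packet HD-PSF** -/
theorem psf : S_PSF := by
  intro n a
  set Y := univ.image a with hY
  refine ⟨GS n a * ∏ y ∈ Y, geo y, ?_, ?_, ?_⟩
  · rw [map_mul, map_prod]
    have h1 : PowerSeries.constantCoeff (GS n a) = 1 := by
      rw [← PowerSeries.coeff_zero_eq_constantCoeff_apply, coeff_GS, gg, map_one]
    have h2 : ∀ y ∈ Y, PowerSeries.constantCoeff (geo y) = 1 := by
      intro y _
      rw [← PowerSeries.coeff_zero_eq_constantCoeff_apply, coeff_geo, pow_zero]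
    rw [h1, Finset.prod_eq_one h2, one_mul]
  · have h1 : PowerSeries.derivative ℂ (GS n a * ∏ y ∈ Y, geo y) =
        (∑ y ∈ Y, PowerSeries.C ((1 - cc n * mlt a y) * y) * geo y) *
          (GS n a * ∏ y ∈ Y, geo y) := by
      rw [Derivation.leibniz, deriv_prod, deriv_GS, sum_vals, ← hY]
      simp only [smul_eq_mul]
      have h2 : ∑ y ∈ Y, PowerSeries.C ((1 - cc n * mlt a y) * y) * geo y =
          ∑ y ∈ Y, PowerSeries.C y * geo y -
            PowerSeries.C (cc n) * ∑ y ∈ Y, PowerSeries.C ((mlt a y : ℂ) * y) * geo y := by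
        rw [Finset.mul_sum, ← Finset.sum_sub_distrib]
        refine Finset.sum_congr rfl fun y _ => ?_
        have : PowerSeries.C ((1 - cc n * mlt a y) * y) =
            PowerSeries.C y - PowerSeries.C (cc n) * PowerSeries.C ((mlt a y : ℂ) * y) := by
          rw [← map_mul, ← map_sub]
          congr 1
          ring
        rw [this]
        ring
      rw [h2]
      ring
    rw [h1, ← mul_assoc, Finset.mul_sum]
    congr 1
    refine Finset.sum_congr rfl fun y hy => ?_
    rw [← pr1_geo Y hy]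
    ring
  · intro i m
    have hi : a i ∈ Y := Finset.mem_image_of_mem a (Finset.mem_univ i)
    have h1 : pr1 (Y.erase (a i)) * (GS n a * ∏ y ∈ Y, geo y) = geo (a i) * GS n a := by
      rw [← pr1_geo Y hi]
      calc _ = (pr1 Y * ∏ y ∈ Y, geo y) * (geo (a i) * GS n a) := by ring
        _ = _ := by rw [pr1_prod, one_mul]
    rw [h1, PowerSeries.coeff_mul, Finset.Nat.sum_antidiagonal_eq_sum_range_succ_mk]
    unfold ff
    rw [map_sum]
    refine Finset.sum_congr rfl fun s _ => ?_
    rw [map_mul, map_pow, eval_X, coeff_geo, coeff_GS]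

end

end Pool.Agent.Helper13.HD
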