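import Pool.Agent.Helper44.HD.GoalsQ

/-!
# Project HD (MP_e5f486_ag), packet HD-QP

`Hom(V, W)` is finite projective over `E(W)` if `V` is a direct summand of `W`.
-/

set_option autoImplicit false

open Finset

namespace Pool.Agent.Helper13.HD

open Pool.Agent.Helper44.HD

section

variable {k G R v w : Type} [Field k] [Group G] [Ring R] [Algebra k R]
  [MulSemiringAction G R] [SMulCommClass G k R] {D : RedGroup k G}
  [Fintype v] [DecidableEq v] [Fintype w] [DecidableEq w]

theorem smul_algebraMap' (g : G) (c : k) : g • (algebraMap k R c) = algebraMap k R c := by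
  rw [Algebra.algebraMap_eq_smul_one, smul_comm, smul_one]

/-- an equivariant matrix over `k` gives an element of `Hom(V, W)` -/
theorem map_mem_Hm (V : MRep D v) (W : MRep D w) (c : Matrix w v k)
    (hc : ∀ g, W.m g * c = c * V.m g) : c.map (algebraMap k R) ∈ Hm R V W := by
  intro g i j
  have h1 : ∑ x, W.m g i x • (g • (c.map (algebraMap k R)) x j) =
      algebraMap k R ((W.m g * c) i j) := by
    rw [Matrix.mul_apply, map_sum]
    refine sum_congr rfl fun x _ => ?_
    rw [Matrix.map_apply, smul_algebraMap', map_mul, Algebra.smul_def]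
  have h2 : ∑ y, V.m g y j • (c.map (algebraMap k R)) i y =
      algebraMap k R ((c * V.m g) i j) := by
    rw [Matrix.mul_apply, map_sum]
    refine sum_congr rfl fun y _ => ?_
    rw [Matrix.map_apply, mul_comm, map_mul, Algebra.smul_def]
  rw [h1, h2, hc g]

end

/-- PACKET HD-QP. -/
theorem qp : StmtQP := by
  intro k G R v w _ _ _ _ _ _ D _ _ _ _ V W hVW
  obtain ⟨a, b, ha, hb, hba⟩ := hVW
  have ha' : a.map (algebraMap k R) ∈ Hm R V W := map_mem_Hm V W a ha
  have hb' : b.map (algebraMap k R) ∈ Hm R W V := map_mem_Hm W V b hb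
  have hone : b.map (algebraMap k R) * a.map (algebraMap k R) = 1 := by
    rw [← Matrix.map_mul, hba]
    exact Matrix.map_one _ (map_zero _) (map_one _)
  let f : Hm R V W →ₗ[EE R W] EE R W :=
    { toFun := fun A => ⟨A.1 * b.map (algebraMap k R), Hm_mul A.2 hb'⟩
      map_add' := fun A B => Subtype.ext (Matrix.add_mul A.1 B.1 _)
      map_smul' := fun C A => Subtype.ext (Matrix.mul_assoc C.1 A.1 _) }
  let g : EE R W →ₗ[EE R W] Hm R V W :=
    { toFun := fun C => ⟨C.1 * a.map (algebraMap k R), Hm_mul C.2 ha'⟩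
      map_add' := fun A B => Subtype.ext (Matrix.add_mul A.1 B.1 _)
      map_smul' := fun C A => Subtype.ext (Matrix.mul_assoc C.1 A.1 _) }
  have hgf : ∀ A, g (f A) = A := by
    intro A
    apply Subtype.ext
    change A.1 * b.map (algebraMap k R) * a.map (algebraMap k R) = A.1
    rw [Matrix.mul_assoc, hone, Matrix.mul_one]
  exact ⟨Module.Finite.of_surjective g fun A => ⟨f A, hgf A⟩,
    Module.Projective.of_split f g (LinearMap.ext hgf)⟩

end Pool.Agent.Helper13.HD
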