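import Pool.Agent.Helper44.HD.GoalsH

/-!
# Project HD (MP_e5f486_ag), packet HD-SU

Bimodule summands of `P ⊗ U`: `su : StmtTT → StmtBS → StmtSU`.
-/

set_option autoImplicit false

open TensorProduct

namespace Pool.Agent.Helper13.HD

open Pool.Agent.Helper44.HD

section act

variable {k E A N : Type} [Field k] [Ring E] [Algebra k E] [Ring A] [Algebra k A]
  [AddCommGroup N] [Module k N] [Module E N] [IsScalarTower k E N]

/-- the action on a stable submodule -/
def subAct (X : RAct k E A N) (S : Submodule E N) (h : ∀ a, ∀ x ∈ S, X.r a x ∈ S) :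
    RAct k E A S where
  r a := (X.r a).restrict (h a)
  add a b x := Subtype.ext (X.add a b x)
  smul c a x := Subtype.ext (X.smul c a x)
  mul a b x := Subtype.ext (X.mul a b x)
  one x := Subtype.ext (X.one x)

theorem subAct_coe (X : RAct k E A N) (S : Submodule E N) (h : ∀ a, ∀ x ∈ S, X.r a x ∈ S)
    (a : A) (x : S) : ((subAct X S h).r a x : N) = X.r a x := rfl

/-- the action on the quotient by a stable submodule -/
def quoAct (X : RAct k E A N) (S : Submodule E N) (h : ∀ a, ∀ x ∈ S, X.r a x ∈ S) :
    RAct k E A (N ⧸ S) where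
  r a := S.mapQ S (X.r a) (h a)
  add a b x := by
    obtain ⟨y, rfl⟩ := S.mkQ_surjective x
    exact congrArg S.mkQ (X.add a b y)
  smul c a x := by
    obtain ⟨y, rfl⟩ := S.mkQ_surjective x
    exact congrArg S.mkQ (X.smul c a y)
  mul a b x := by
    obtain ⟨y, rfl⟩ := S.mkQ_surjective x
    exact congrArg S.mkQ (X.mul a b y)
  one x := by
    obtain ⟨y, rfl⟩ := S.mkQ_surjective x
    exact congrArg S.mkQ (X.one y)

theorem quoAct_mk (X : RAct k E A N) (S : Submodule E N) (h : ∀ a, ∀ x ∈ S, X.r a x ∈ S)
    (a : A) (x : N) : (quoAct X S h).r a (S.mkQ x) = S.mkQ (X.r a x) := rfl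

/-- `N I`, for a left ideal `I` -/
def mulI (X : RAct k E A N) (I : Ideal A) : Submodule E N :=
  Submodule.span E {w | ∃ j ∈ I, ∃ x, w = X.r j x}

theorem mem_mulI (X : RAct k E A N) (I : Ideal A) {j : A} (hj : j ∈ I) (x : N) :
    X.r j x ∈ mulI X I := Submodule.subset_span ⟨j, hj, x, rfl⟩

theorem mulI_stable (X : RAct k E A N) (I : Ideal A) [I.IsTwoSided] (a : A) :
    ∀ x ∈ mulI X I, X.r a x ∈ mulI X I := by
  intro x hx
  have h : mulI X I ≤ (mulI X I).comap (X.r a) := by
    refine Submodule.span_le.mpr ?_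
    rintro _ ⟨j, hj, y, rfl⟩
    change X.r a (X.r j y) ∈ mulI X I
    rw [← X.mul]
    exact mem_mulI X I (I.mul_mem_right a hj) y
  exact h hx

theorem mulI_pow (X : RAct k E A N) (I : Ideal A) (h : mulI X I = ⊤) (n : ℕ) :
    mulI X (I ^ n) = ⊤ := by
  induction n with
  | zero =>
    rw [Submodule.pow_zero, Ideal.one_eq_top, eq_top_iff]
    intro x _
    rw [← X.one x]
    exact mem_mulI X ⊤ trivial x
  | succ n ih =>
    rw [eq_top_iff, ← h]
    refine Submodule.span_le.mpr ?_
    rintro _ ⟨j, hj, y, rfl⟩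
    have hy : y ∈ mulI X (I ^ n) := by
      rw [ih]
      trivial
    have h2 : mulI X (I ^ n) ≤ (mulI X (I ^ (n + 1))).comap (X.r j) := by
      refine Submodule.span_le.mpr ?_
      rintro _ ⟨j', hj', z, rfl⟩
      change X.r j (X.r j' z) ∈ mulI X (I ^ (n + 1))
      rw [← X.mul]
      refine mem_mulI X _ ?_ z
      rw [Submodule.pow_succ]
      exact Ideal.mul_mem_mul hj' hj
    exact h2 hy

theorem mulI_bot (X : RAct k E A N) : mulI X (⊥ : Ideal A) = ⊥ := by
  refine Submodule.span_eq_bot.mpr ?_
  rintro _ ⟨j, hj, y, rfl⟩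
  have hj0 : j = 0 := hj
  rw [hj0]
  have := X.smul 0 0 y
  rwa [zero_smul, zero_smul] at this

end act

section tens

variable {k E P : Type} [Field k] [Ring E] [Algebra k E]
  [AddCommGroup P] [Module k P] [Module E P] [IsScalarTower k E P]

/-- `1 ⊗ g` -/
abbrev om {U V : Type} [AddCommGroup U] [Module k U] [AddCommGroup V] [Module k V]
    (g : U →ₗ[k] V) : P ⊗[k] U →ₗ[E] P ⊗[k] V :=
  TensorProduct.AlgebraTensorModule.map (LinearMap.id : P →ₗ[E] P) g

theorem om_comp {U V W : Type} [AddCommGroup U] [Module k U] [AddCommGroup V] [Module k V]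
    [AddCommGroup W] [Module k W] (g : U →ₗ[k] V) (h : V →ₗ[k] W) (z : P ⊗[k] U) :
    (om (E := E) h) ((om (E := E) g) z) = (om (E := E) (h ∘ₗ g)) z := by
  induction z using TensorProduct.induction_on with
  | zero => simp
  | tmul x y => rfl
  | add x y hx hy => rw [map_add, map_add, map_add, hx, hy]

theorem om_id {U : Type} [AddCommGroup U] [Module k U] (z : P ⊗[k] U) :
    (om (E := E) (LinearMap.id : U →ₗ[k] U)) z = z := by
  induction z using TensorProduct.induction_on with
  | zero => simp
  | tmul x y => rfl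
  | add x y hx hy => rw [map_add, hx, hy]

theorem om_zero {U V : Type} [AddCommGroup U] [Module k U] [AddCommGroup V] [Module k V]
    (z : P ⊗[k] U) : (om (E := E) (0 : U →ₗ[k] V)) z = 0 := by
  induction z using TensorProduct.induction_on with
  | zero => simp
  | tmul x y => exact TensorProduct.tmul_zero V x
  | add x y hx hy => rw [map_add, hx, hy, add_zero]

theorem finite_tens {U : Type} [AddCommGroup U] [Module k U] [FiniteDimensional k U]
    (h : Module.Finite E P) : Module.Finite E (P ⊗[k] U) := by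
  let b := Module.finBasis k U
  let f : (Fin (Module.finrank k U) → P) →ₗ[E] P ⊗[k] U :=
    { toFun := fun x => ∑ i, x i ⊗ₜ[k] b i
      map_add' := fun x y => by
        simp [TensorProduct.add_tmul, Finset.sum_add_distrib]
      map_smul' := fun c x => by
        simp [Finset.smul_sum, TensorProduct.smul_tmul'] }
  refine Module.Finite.of_surjective f ?_
  intro z
  induction z using TensorProduct.induction_on with
  | zero => exact ⟨0, map_zero f⟩
  | tmul x y =>
    refine ⟨fun i => b.repr y i • x, ?_⟩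
    change ∑ i, (b.repr y i • x) ⊗ₜ[k] b i = x ⊗ₜ[k] y
    conv_rhs => rw [← b.sum_repr y, TensorProduct.tmul_sum]
    exact Finset.sum_congr rfl fun i _ => TensorProduct.smul_tmul _ _ _
  | add x y hx hy =>
    obtain ⟨x', hx⟩ := hx
    obtain ⟨y', hy⟩ := hy
    exact ⟨x' + y', by rw [map_add, hx, hy]⟩

end tens

/-- the induction -/
theorem su_aux (hTT : StmtTT) (hBS : StmtBS) (k E A P : Type) [Field k] [CharZero k] [Ring E]
    [Algebra k E] [Ring A] [Algebra k A] [FiniteDimensional k A]
    [AddCommGroup P] [Module k P] [Module E P] [IsScalarTower k E P]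
    (hP1 : Module.Finite E P) (hP2 : Module.Projective E P) (d : ℕ) :
    ∀ (N U : Type) [AddCommGroup N] [Module k N] [Module E N] [IsScalarTower k E N]
      [AddCommGroup U] [Module k U] [FiniteDimensional k U] (X : RAct k E A N)
      (u : RAct k k A U) (i : N →ₗ[E] P ⊗[k] U) (p : P ⊗[k] U →ₗ[E] N),
      Module.finrank k U ≤ d → (∀ x, p (i x) = x) →
      (∀ a x, i (X.r a x) = (om (E := E) (u.r a)) (i x)) →
      (∀ a y, p ((om (E := E) (u.r a)) y) = X.r a (p y)) → CZ X := by
  induction d with
  | zero =>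
    intro N U _ _ _ _ _ _ _ X u i p hd h1 h2 h3
    have hU : Subsingleton U := Module.finrank_zero_iff.mp (Nat.le_zero.mp hd)
    refine hBS k E A N X fun a _ x => ?_
    have h4 : u.r a = 0 := Subsingleton.elim _ _
    have h5 : i (X.r a x) = 0 := by
      rw [h2, h4]
      exact om_zero _
    rw [← h1 (X.r a x), h5, map_zero]
  | succ d ih =>
    intro N U _ _ _ _ _ _ _ X u i p hd h1 h2 h3
    have : IsArtinianRing A := IsArtinianRing.of_finite k A
    obtain ⟨n, hn⟩ := (IsSemiprimaryRing.isNilpotent : IsNilpotent (Ring.jacobson A))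
    have hn' : (Ring.jacobson A) ^ n = ⊥ := hn
    set J : Ideal A := Ring.jacobson A with hJ
    by_cases hz : mulI u J = ⊥
    · refine hBS k E A N X fun a ha x => ?_
      have h4 : u.r a = 0 := by
        ext y
        have := mem_mulI u J ha y
        rw [hz] at this
        exact this
      have h5 : i (X.r a x) = 0 := by
        rw [h2, h4]
        exact om_zero _
      rw [← h1 (X.r a x), h5, map_zero]
    have ht : mulI u J ≠ ⊤ := by
      intro ht
      have h6 := mulI_pow u J ht n
      rw [hn', mulI_bot] at h6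
      apply hz
      rw [ht, ← h6]
    have hsU := mulI_stable u J
    have hsN := mulI_stable X J
    let U' : Submodule k U := mulI u J
    let N' : Submodule E N := mulI X J
    have hdU' : Module.finrank k U' < Module.finrank k U := Submodule.finrank_lt ht
    have hpos : 0 < Module.finrank k U' := by
      rcases Nat.eq_zero_or_pos (Module.finrank k U') with h0 | h0
      · exact absurd (Submodule.finrank_eq_zero.mp h0) hz
      · exact h0
    have hdU'' : Module.finrank k (U ⧸ U') + Module.finrank k U' = Module.finrank k U :=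
      Submodule.finrank_quotient_add_finrank U'
    -- values of `p` on `P ⊗ U'`
    have hK : ∀ (y : P) (w : U), w ∈ U' → p (y ⊗ₜ[k] w) ∈ N' := by
      intro y w hw
      refine Submodule.span_induction (p := fun w _ => p (y ⊗ₜ[k] w) ∈ N') ?_ ?_ ?_ ?_ hw
      · rintro _ ⟨j, hj, v, rfl⟩
        have h7 := h3 j (y ⊗ₜ[k] v)
        have h8 : p (y ⊗ₜ[k] (u.r j v)) = X.r j (p (y ⊗ₜ[k] v)) := h7
        rw [h8]
        exact mem_mulI X J hj _
      · rw [TensorProduct.tmul_zero, map_zero]
        exact N'.zero_mem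
      · intro a b _ _ ha hb
        rw [TensorProduct.tmul_add, map_add]
        exact N'.add_mem ha hb
      · intro c a _ ha
        have h9 : y ⊗ₜ[k] (c • a) = (algebraMap k E c) • (y ⊗ₜ[k] a) := by
          rw [TensorProduct.tmul_smul, algebraMap_smul]
        rw [h9, map_smul]
        exact N'.smul_mem _ ha
    have hL : ∀ (V : Type) [AddCommGroup V] [Module k V] (g : V →ₗ[k] U), (∀ v, g v ∈ U') →
        ∀ z : P ⊗[k] V, p ((om (E := E) g) z) ∈ N' := by
      intro V _ _ g hg z
      induction z using TensorProduct.induction_on with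
      | zero =>
        rw [map_zero, map_zero]
        exact N'.zero_mem
      | tmul x y => exact hK x (g y) (hg y)
      | add x y hx hy =>
        rw [map_add, map_add]
        exact N'.add_mem hx hy
    obtain ⟨pr, hpr⟩ := LinearMap.exists_leftInverse_of_injective U'.subtype U'.ker_subtype
    obtain ⟨s, hs⟩ := LinearMap.exists_rightInverse_of_surjective U'.mkQ
      (LinearMap.range_eq_top.mpr U'.mkQ_surjective)
    have hpr' : ∀ w (hw : w ∈ U'), pr w = ⟨w, hw⟩ := fun w hw =>
      LinearMap.congr_fun hpr ⟨w, hw⟩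
    have hs' : ∀ v, U'.mkQ (s v) = v := fun v => LinearMap.congr_fun hs v
    -- (1) the sub
    let i1 : N' →ₗ[E] P ⊗[k] U' := (om (E := E) pr) ∘ₗ i ∘ₗ N'.subtype
    let p1 : P ⊗[k] U' →ₗ[E] N' :=
      LinearMap.codRestrict N' (p ∘ₗ (om (E := E) U'.subtype)) fun z =>
        hL U' U'.subtype (fun v => v.2) z
    have hinc : ∀ x ∈ N', (om (E := E) U'.subtype) ((om (E := E) pr) (i x)) = i x := by
      intro x hx
      have h10 : N' ≤ LinearMap.ker ((om (E := E) U'.subtype) ∘ₗ (om (E := E) pr) ∘ₗ i - i) := by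
        refine Submodule.span_le.mpr ?_
        rintro _ ⟨j, hj, y, rfl⟩
        change (om (E := E) U'.subtype) ((om (E := E) pr) (i (X.r j y))) - i (X.r j y) = 0
        rw [h2, om_comp, om_comp, sub_eq_zero]
        congr 2
        ext v
        change ((pr (u.r j v) : U') : U) = u.r j v
        rw [hpr' _ (mem_mulI u J hj v)]
      exact sub_eq_zero.mp (h10 hx)
    have hi1 : ∀ x, p1 (i1 x) = x := by
      intro x
      apply Subtype.ext
      change p ((om (E := E) U'.subtype) ((om (E := E) pr) (i x))) = x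
      rw [hinc x x.2, h1]
    have hinj : Function.Injective (om (E := E) (P := P) U'.subtype) := by
      intro a b hab
      have := congrArg (om (E := E) pr) hab
      rwa [om_comp, om_comp, hpr, om_id, om_id] at this
    have c1 : CZ (subAct X N' hsN) := by
      refine ih N' U' (subAct X N' hsN) (subAct u U' hsU) i1 p1 (by omega) hi1 ?_ ?_
      · intro a x
        apply hinj
        rw [om_comp]
        have e1 : U'.subtype ∘ₗ (subAct u U' hsU).r a = u.r a ∘ₗ U'.subtype := rfl
        rw [e1, ← om_comp]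
        change (om (E := E) U'.subtype) ((om (E := E) pr) (i (X.r a x))) =
          (om (E := E) (u.r a)) ((om (E := E) U'.subtype) ((om (E := E) pr) (i x)))
        rw [hinc x x.2, hinc _ (hsN a x x.2), h2]
      · intro a y
        apply Subtype.ext
        change p ((om (E := E) U'.subtype) ((om (E := E) ((subAct u U' hsU).r a)) y)) =
          X.r a (p ((om (E := E) U'.subtype) y))
        rw [om_comp, ← h3, om_comp]
        rfl
    -- (2) the quotient
    have hker : N' ≤ LinearMap.ker ((om (E := E) U'.mkQ) ∘ₗ i) := by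
      refine Submodule.span_le.mpr ?_
      rintro _ ⟨j, hj, y, rfl⟩
      change (om (E := E) U'.mkQ) (i (X.r j y)) = 0
      rw [h2, om_comp]
      have e2 : U'.mkQ ∘ₗ u.r j = 0 := by
        ext v
        exact (Submodule.Quotient.mk_eq_zero U').mpr (mem_mulI u J hj v)
      rw [e2]
      exact om_zero _
    let i2 : (N ⧸ N') →ₗ[E] P ⊗[k] (U ⧸ U') := N'.liftQ ((om (E := E) U'.mkQ) ∘ₗ i) hker
    let p2 : P ⊗[k] (U ⧸ U') →ₗ[E] (N ⧸ N') := N'.mkQ ∘ₗ p ∘ₗ (om (E := E) s)
    have hcmp : ∀ (V : Type) [AddCommGroup V] [Module k V] (g g' : V →ₗ[k] U),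
        (∀ v, U'.mkQ (g v) = U'.mkQ (g' v)) →
        ∀ z : P ⊗[k] V, N'.mkQ (p ((om (E := E) g) z)) = N'.mkQ (p ((om (E := E) g') z)) := by
      intro V _ _ g g' hgg z
      have h11 : p ((om (E := E) (g - g')) z) ∈ N' := hL V (g - g') (fun v => by
        have := hgg v
        exact (Submodule.Quotient.eq U').mp this) z
      have h12 : (om (E := E) (g - g')) z = (om (E := E) g) z - (om (E := E) g') z := by
        clear h11
        induction z using TensorProduct.induction_on with
        | zero => simp
        | tmul x y => exact TensorProduct.tmul_sub x (g y) (g' y)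
        | add x y hx hy =>
          rw [map_add, map_add, map_add, hx, hy]
          abel
      rw [h12, map_sub] at h11
      exact (Submodule.Quotient.eq N').mpr h11
    have hi2 : ∀ x, p2 (i2 x) = x := by
      intro x
      obtain ⟨y, rfl⟩ := N'.mkQ_surjective x
      change N'.mkQ (p ((om (E := E) s) ((om (E := E) U'.mkQ) (i y)))) = N'.mkQ y
      rw [om_comp, hcmp U (s ∘ₗ U'.mkQ) LinearMap.id (fun v => hs' (U'.mkQ v)), om_id, h1]
    have c2 : CZ (quoAct X N' hsN) := by
      refine ih (N ⧸ N') (U ⧸ U') (quoAct X N' hsN) (quoAct u U' hsU) i2 p2 (by omega) hi2 ?_ ?_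
      · intro a x
        obtain ⟨y, rfl⟩ := N'.mkQ_surjective x
        change (om (E := E) U'.mkQ) (i (X.r a y)) =
          (om (E := E) ((quoAct u U' hsU).r a)) ((om (E := E) U'.mkQ) (i y))
        rw [h2, om_comp, om_comp]
        rfl
      · intro a y
        change N'.mkQ (p ((om (E := E) s) ((om (E := E) ((quoAct u U' hsU).r a)) y))) =
          N'.mkQ (X.r a (p ((om (E := E) s) y)))
        rw [om_comp, ← h3, om_comp]
        refine hcmp (U ⧸ U') _ _ (fun v => ?_) y
        change U'.mkQ (s ((quoAct u U' hsU).r a v)) = (quoAct u U' hsU).r a (U'.mkQ (s v))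
        rw [hs', hs']
    -- (3) finiteness and projectivity
    have f1 : Module.Finite E (P ⊗[k] U') := finite_tens hP1
    have f2 : Module.Finite E (P ⊗[k] (U ⧸ U')) := finite_tens hP1
    have q1 : Module.Projective E (P ⊗[k] U') := inferInstance
    have q2 : Module.Projective E (P ⊗[k] (U ⧸ U')) := inferInstance
    have m1 : Module.Finite E N' := Module.Finite.of_surjective p1 fun x => ⟨i1 x, hi1 x⟩
    have m2 : Module.Finite E (N ⧸ N') := Module.Finite.of_surjective p2 fun x => ⟨i2 x, hi2 x⟩
    have m3 : Module.Projective E N' :=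
      Module.Projective.of_split i1 p1 (LinearMap.ext hi1)
    have m4 : Module.Projective E (N ⧸ N') :=
      Module.Projective.of_split i2 p2 (LinearMap.ext hi2)
    exact (hTT k E A N' N (N ⧸ N') (subAct X N' hsN) X (quoAct X N' hsN) N'.subtype N'.mkQ
      N'.subtype_injective N'.mkQ_surjective
      (fun x => by
        constructor
        · intro hx
          exact ⟨⟨x, (Submodule.Quotient.mk_eq_zero N').mp hx⟩, rfl⟩
        · rintro ⟨y, rfl⟩
          exact (Submodule.Quotient.mk_eq_zero N').mpr y.2)
      (fun a x => rfl) (fun a x => rfl) m1 m3 m2 m4).1 c1 c2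

/-- PACKET HD-SU. -/
theorem su (hTT : StmtTT) (hBS : StmtBS) : StmtSU := by
  intro k E A N P U _ _ _ _ _ _ _ _ _ _ _ _ _ _ _ _ _ _ X u i p hP1 hP2 h1 h2 h3
  exact su_aux hTT hBS k E A P hP1 hP2 (Module.finrank k U) N U X u i p le_rfl h1 h2 h3

end Pool.Agent.Helper13.HD
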