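import Pool.Agent.Helper4.HD.Goals

/-!
# Project SQ (MP_bb32d1_al), Dunkl block, packet HD-VAN: vanishing of consecutive coefficients
-/

set_option autoImplicit false

namespace Pool.Agent.Helper13.HD

open Finset Pool.Agent.Helper4.HD

theorem coeff_lin (z : ℂ) (V : PowerSeries ℂ) (k : ℕ) :
    PowerSeries.coeff (k + 1) ((1 - PowerSeries.C z * PowerSeries.X) * V) =
      PowerSeries.coeff (k + 1) V - z * PowerSeries.coeff k V := by
  rw [sub_mul, one_mul, map_sub, mul_assoc, PowerSeries.coeff_C_mul,
    PowerSeries.coeff_succ_X_mul]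

theorem pr1_sdiff_erase {Y S : Finset ℂ} (hS : S ⊆ Y) {z : ℂ} (hz : z ∈ S) :
    pr1 (Y \ S.erase z) = (1 - PowerSeries.C z * PowerSeries.X) * pr1 (Y \ S) := by
  have h1 : Y \ S.erase z = insert z (Y \ S) := by
    ext w
    simp only [mem_sdiff, mem_erase, mem_insert, not_and]
    constructor
    · rintro ⟨h2, h3⟩
      by_cases h4 : w = z
      · exact Or.inl h4
      · exact Or.inr ⟨h2, h3 h4⟩
    · rintro (h2 | ⟨h2, h3⟩)
      · subst h2
        exact ⟨hS hz, fun h => absurd rfl h⟩
      · exact ⟨h2, fun _ => h3⟩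
  unfold pr1
  rw [h1, Finset.prod_insert]
  intro h2
  exact (mem_sdiff.1 h2).2 hz

/-- **Packet HD-VAN** -/
theorem van : S_VAN := by
  intro Y H r hY hr hyp
  have key : ∀ m : ℕ, ∀ S : Finset ℂ, S ⊆ Y → S.card = m + 1 → ∀ k, r < k + (m + 1) → k ≤ r →
      PowerSeries.coeff k (pr1 (Y \ S) * H) = 0 := by
    intro m
    induction m with
    | zero =>
      intro S hS hc k h1 h2
      obtain ⟨y, rfl⟩ := Finset.card_eq_one.1 hc
      have hk : k = r := by omega
      rw [hk, Finset.sdiff_singleton_eq_erase]
      exact hyp y (hS (Finset.mem_singleton_self y))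
    | succ m ih =>
      intro S hS hc
      obtain ⟨y, hy, z, hz, hyz⟩ := Finset.one_lt_card.1 (by omega : 1 < S.card)
      have cy : (S.erase y).card = m + 1 := by rw [Finset.card_erase_of_mem hy]; omega
      have cz : (S.erase z).card = m + 1 := by rw [Finset.card_erase_of_mem hz]; omega
      have iy := ih (S.erase y) ((Finset.erase_subset _ _).trans hS) cy
      have iz := ih (S.erase z) ((Finset.erase_subset _ _).trans hS) cz
      rw [pr1_sdiff_erase hS hy, mul_assoc] at iy
      rw [pr1_sdiff_erase hS hz, mul_assoc] at iz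
      have low : ∀ k, r < k + (m + 1 + 1) → k < r →
          PowerSeries.coeff k (pr1 (Y \ S) * H) = 0 := by
        intro k h1 h2
        have e1 := iy (k + 1) (by omega) (by omega)
        have e2 := iz (k + 1) (by omega) (by omega)
        rw [coeff_lin] at e1 e2
        have e3 : (y - z) * PowerSeries.coeff k (pr1 (Y \ S) * H) = 0 := by
          linear_combination e2 - e1
        rcases mul_eq_zero.1 e3 with h | h
        · exact absurd (sub_eq_zero.1 h) hyz
        · exact h
      intro k h1 h2
      rcases lt_or_eq_of_le h2 with h3 | h3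
      · exact low k h1 h3
      · have hpos : 0 < r := lt_of_lt_of_le hY.card_pos hr
        obtain ⟨r', hr'⟩ : ∃ r', r = r' + 1 := ⟨r - 1, by omega⟩
        have e1 := iz (r' + 1) (by omega) (by omega)
        rw [coeff_lin, low r' (by omega) (by omega), mul_zero, sub_zero] at e1
        rw [h3, hr']
        exact e1
  intro k h1 h2
  have hpos := hY.card_pos
  have h3 := key (Y.card - 1) Y (Finset.Subset.refl Y) (by omega) k (by omega) h2
  rw [Finset.sdiff_self] at h3
  unfold pr1 at h3
  rwa [Finset.prod_empty, one_mul] at h3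

end Pool.Agent.Helper13.HD
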